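import Mathlib
import Pool.Agent.H533.GE.ShfQ

set_option autoImplicit false

/-!
# Exact prime patterns with shifts in an arbitrary set

`nu T p`, `S T` are `ν_T(p)` and the singular series of the problem, `P x D` is its counting function
(the elements `0` included in `D`), and `E x J T` is the number of the `n` in `[x, 2x)` for which the
elements `a` of `J` with `n + a` prime are exactly those of `T`.
-/

namespace Pool.Agent.Results.MP_485179_nt.ExactPatterns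

open Finset

/-- the number of residue classes mod `p` that meet `T` -/
def nu (T : Finset ℕ) (p : ℕ) : ℕ := (T.image (fun a => a % p)).card

/-- the singular series -/
noncomputable def S (T : Finset ℕ) : ℝ :=
  ∏' p : Nat.Primes, (1 - (nu T p : ℝ) / ((p : ℕ) : ℝ)) / (1 - 1 / ((p : ℕ) : ℝ)) ^ T.card

/-- the number of the `m ≤ x` with `m + d` prime for all `d ∈ D` -/
def P (x : ℕ) (D : Finset ℕ) : ℕ := ((Icc 1 x).filter (fun m => ∀ d ∈ D, (m + d).Prime)).card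

/-- the number of the `n`, `x ≤ n < 2x`, such that for the elements `a` of `J` the number `n + a` is
prime if `a ∈ T` and is not prime if `a ∉ T` -/
def E (x : ℕ) (J T : Finset ℕ) : ℕ :=
  ((Ico x (2 * x)).filter (fun n => ∀ a ∈ J, ((n + a).Prime ↔ a ∈ T))).card

/-- `n / φ(n)` -/
noncomputable def G (n : ℕ) : ℝ := (n : ℝ) / Nat.totient n

/-- `J` has at most `Λ L` elements and the sum of `G(|a - b|) ^ k` over the ordered pairs of distinct
elements of `J` is at most `C k * L ^ 2`, for every `k` -/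
def Mom (C : ℕ → ℝ) (Λ L : ℝ) (J : Finset ℕ) : Prop :=
  (J.card : ℝ) ≤ Λ * L ∧ ∀ k : ℕ, ∑ q ∈ J.offDiag, G (Nat.dist q.1 q.2) ^ k ≤ C k * L ^ 2

lemma mom_iff {C : ℕ → ℝ} {Λ L : ℝ} {J : Finset ℕ} :
    Mom C Λ L J ↔ Pool.Agent.H533.GE.MomJ C Λ L J := Iff.rfl

lemma S_eq (T : Finset ℕ) : S T = Pool.Agent.H533.GE.SS T := (Pool.Agent.H533.GE.SS_eq T).symm

lemma E_eq {x : ℕ} {J T : Finset ℕ} (h : T ⊆ J) : E x J T = Pool.Agent.H533.GE.ES x J T := by
  classical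
  unfold E Pool.Agent.H533.GE.ES
  congr 1
  apply filter_congr
  intro n _
  constructor
  · intro h1
    ext a
    rw [Pool.Agent.H533.GE.mem_TJ]
    exact ⟨fun h2 => (h1 a h2.1).1 h2.2, fun h2 => ⟨h h2, (h1 a (h h2)).2 h2⟩⟩
  · intro h1 a ha
    rw [← h1, Pool.Agent.H533.GE.mem_TJ]
    exact ⟨fun h2 => ⟨ha, h2⟩, fun h2 => h2.2⟩

lemma nu_shift (D : Finset ℕ) (a : ℕ) {p : ℕ} (hp : 0 < p) :
    nu (D.image (fun d => d + a)) p = nu D p := by
  classical
  unfold nu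
  rw [image_image]
  have e : D.image ((fun b => b % p) ∘ fun d => d + a) =
      (D.image (fun d => d % p)).image (fun c => (c + a) % p) := by
    rw [image_image]
    apply image_congr
    intro d _
    show (d + a) % p = (d % p + a) % p
    rw [Nat.mod_add_mod]
  rw [e]
  apply card_image_of_injOn
  intro c hc c' hc' h
  rw [mem_coe, mem_image] at hc hc'
  obtain ⟨d, _, rfl⟩ := hc
  obtain ⟨d', _, rfl⟩ := hc'
  have h1 : (d % p + a) ≡ (d' % p + a) [MOD p] := h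
  have h2 := Nat.ModEq.add_right_cancel' a h1
  exact Nat.ModEq.eq_of_lt_of_lt h2 (Nat.mod_lt _ hp) (Nat.mod_lt _ hp)

lemma S_shift (D : Finset ℕ) (a : ℕ) : S (D.image (fun d => d + a)) = S D := by
  classical
  unfold S
  apply tprod_congr
  intro p
  rw [nu_shift D a p.2.pos, card_image_of_injective _ (fun x y h => Nat.add_right_cancel h)]

lemma E_le_P (x a : ℕ) (J D : Finset ℕ) (h : D.image (fun d => d + a) ⊆ J) (hx : 1 ≤ x) :
    E x J (D.image (fun d => d + a)) ≤ P (2 * x + a) D := by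
  classical
  unfold E P
  apply card_le_card_of_injOn (fun n => n + a)
  · intro n hn
    rw [mem_coe, mem_filter, mem_Ico] at hn
    rw [mem_coe, mem_filter, mem_Icc]
    refine ⟨⟨by show 1 ≤ n + a; omega, by show n + a ≤ 2 * x + a; omega⟩, fun d hd => ?_⟩
    have h1 : d + a ∈ D.image (fun d => d + a) := mem_image_of_mem _ hd
    have h2 := (hn.2 _ (h h1)).2 h1
    have e : n + a + d = n + (d + a) := by omega
    show (n + a + d).Prime
    rw [e]
    exact h2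
  · intro n _ n' _ h1
    exact Nat.add_right_cancel h1

open Classical in
lemma GS_sub {x l : ℕ} {κ : ℝ} {J R : Finset ℕ} :
    Pool.Agent.H533.GE.GS x l κ J R ⊆ (((R ∩ J).powersetCard l).filter
        (fun T => κ * max 1 (S T) * (x / Real.log x ^ l) ≤ (E x J T : ℝ))) := by
  intro T hT
  unfold Pool.Agent.H533.GE.GS at hT
  rw [mem_filter, mem_powersetCard] at hT
  obtain ⟨⟨h1, h2⟩, h3⟩ := hT
  have hTJ : T ⊆ J := fun r hr => (mem_filter.1 (h1 hr)).2
  rw [mem_filter, mem_powersetCard]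
  refine ⟨⟨fun r hr => ?_, h2⟩, ?_⟩
  · rw [mem_inter]
    exact ⟨(mem_filter.1 (h1 hr)).1, (mem_filter.1 (h1 hr)).2⟩
  · rw [E_eq hTJ, S_eq]
    exact h3

open Classical in
/-- (0) A translation of the shifts: `S (D + a) = S D`, `E x J (D + a) ≤ P (2x + a) D`.

(1) For all `C : ℕ → ℝ`, `Λ, ρ > 0`, `m ≥ 1` there are `M` and `κ > 0` such that for every `B` and all
large `x`: if `J` is a set of positive integers up to `(log x) ^ B` with `Mom C Λ (log x) J` and `R` is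
a subset of `J` with at least `ρ log x` elements, there is `l`, `m ≤ l ≤ M`, such that for at least
`κ (log x) ^ l` of the `l`-element subsets `T` of `R` there are at least
`κ max(1, S T) x / (log x) ^ l` integers `n` in `[x, 2x)` with `{a ∈ J : n + a prime} = T`.

(2) For all `C`, `Λ, ρ > 0` and `l ≥ 1` there is `κ > 0` such that for every `B`, all large `x` and
all such `J`, `R` there is an integer `N` such that, for `J' = {a ∈ J : a ≤ N}` and at least
`κ (log x) ^ l` of the `l`-element subsets `T` of `R ∩ J'`, there are at least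
`κ max(1, S T) x / (log x) ^ l` integers `n` in `[x, 2x)` with `{a ∈ J' : n + a prime} = T`.

(3) For every `b > 0` there is `C` such that all `J = {1, ..., N}` with `N ≤ b L` satisfy
`Mom C b L J`; for every `b > 0` and `c` there is `C` such that all `J = {j ^ 2 + c j : 1 ≤ j ≤ N}` with
`N ≤ b L` satisfy `Mom C b L J`. -/
theorem result :
    (∀ (D : Finset ℕ) (a : ℕ), S (D.image (fun d => d + a)) = S D ∧
      ∀ (x : ℕ) (J : Finset ℕ), 1 ≤ x → D.image (fun d => d + a) ⊆ J →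
        E x J (D.image (fun d => d + a)) ≤ P (2 * x + a) D) ∧
    (∀ (C : ℕ → ℝ) (Λ ρ : ℝ), 0 < Λ → 0 < ρ → ∀ m : ℕ, 1 ≤ m →
      ∃ M : ℕ, ∃ κ : ℝ, 0 < κ ∧ ∀ B : ℕ, ∃ x₀ : ℕ, ∀ x : ℕ, x₀ ≤ x → ∀ R J : Finset ℕ, R ⊆ J →
        (∀ a ∈ J, 1 ≤ a ∧ (a : ℝ) ≤ Real.log x ^ B) → Mom C Λ (Real.log x) J →
        ρ * Real.log x ≤ R.card → ∃ l : ℕ, m ≤ l ∧ l ≤ M ∧
        κ * Real.log x ^ l ≤ (((R.powersetCard l).filter
          (fun T => κ * max 1 (S T) * (x / Real.log x ^ l) ≤ (E x J T : ℝ))).card : ℝ)) ∧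
    (∀ (C : ℕ → ℝ) (Λ ρ : ℝ), 0 < Λ → 0 < ρ → ∀ l : ℕ, 1 ≤ l →
      ∃ κ : ℝ, 0 < κ ∧ ∀ B : ℕ, ∃ x₀ : ℕ, ∀ x : ℕ, x₀ ≤ x → ∀ R J : Finset ℕ, R ⊆ J →
        (∀ a ∈ J, 1 ≤ a ∧ (a : ℝ) ≤ Real.log x ^ B) → Mom C Λ (Real.log x) J →
        ρ * Real.log x ≤ R.card → ∃ N : ℕ,
        κ * Real.log x ^ l ≤ ((((R.filter (fun a => a ≤ N)).powersetCard l).filter
          (fun T => κ * max 1 (S T) * (x / Real.log x ^ l) ≤
            (E x (J.filter (fun a => a ≤ N)) T : ℝ))).card : ℝ)) ∧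
    (∀ b : ℝ, 0 < b → ∃ C : ℕ → ℝ, ∀ (L : ℝ) (N : ℕ), 0 ≤ L → (N : ℝ) ≤ b * L →
      Mom C b L (Icc 1 N)) ∧
    (∀ b : ℝ, 0 < b → ∀ c : ℕ, ∃ C : ℕ → ℝ, ∀ (L : ℝ) (N : ℕ), 0 ≤ L → (N : ℝ) ≤ b * L →
      Mom C b L ((Icc 1 N).image (fun j => j ^ 2 + c * j))) := by
  refine ⟨fun D a => ⟨S_shift D a, fun x J hx h => E_le_P x a J D h hx⟩, ?_, ?_,
    fun b hb => Pool.Agent.H533.GE.momI b hb, fun b hb c => Pool.Agent.H533.GE.momQ b hb c⟩
  · intro C Λ ρ hΛ hρ m hm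
    obtain ⟨M, κ, hκ, H⟩ := Pool.Agent.H533.GE.part2S C Λ ρ hΛ hρ m hm
    refine ⟨M, κ, hκ, fun B => ?_⟩
    obtain ⟨x₀, h⟩ := H B
    refine ⟨x₀, fun x hx R J hRJ hJ hM hR => ?_⟩
    obtain ⟨l, h1, h2, h3⟩ := h x hx R J hRJ hJ (mom_iff.1 hM) hR
    refine ⟨l, h1, h2, h3.trans ?_⟩
    rw [Nat.cast_le]
    apply card_le_card
    refine GS_sub.trans ?_
    intro T hT
    rw [mem_filter, mem_powersetCard] at hT ⊢
    exact ⟨⟨hT.1.1.trans inter_subset_left, hT.1.2⟩, hT.2⟩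
  · intro C Λ ρ hΛ hρ l hl
    obtain ⟨κ, hκ, H⟩ := Pool.Agent.H533.GE.part3J C Λ ρ hΛ hρ l hl
    refine ⟨κ, hκ, fun B => ?_⟩
    obtain ⟨x₀, h⟩ := H B
    refine ⟨x₀, fun x hx R J hRJ hJ hM hR => ?_⟩
    obtain ⟨N, h1⟩ := h x hx R J hRJ hJ (mom_iff.1 hM) hR
    refine ⟨N, h1.trans ?_⟩
    rw [Nat.cast_le]
    apply card_le_card
    refine GS_sub.trans ?_
    intro T hT
    rw [mem_filter, mem_powersetCard] at hT ⊢
    refine ⟨⟨fun r hr => ?_, hT.1.2⟩, hT.2⟩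
    have h2 := hT.1.1 hr
    rw [mem_inter, mem_filter] at h2
    exact mem_filter.2 ⟨h2.1, h2.2.2⟩

end Pool.Agent.Results.MP_485179_nt.ExactPatterns
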