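import Mathlib
import Pool.Agent.H522.Robust

/-!
# Prime tuples without forbidden configurations: a theorem of Turán type

`π_n(x, D_n)` is the number of the integers `1 ≤ m ≤ x` for which all `m + d`, `d ∈ D_n`, are prime. The problem asks
for an asymptotic formula for `π_(k+1)(x, {0} ∪ D_k)`; for no single tuple with at least two elements is it even known
that it tends to infinity. By the theorem of Maynard and Tao every admissible set `V` of `exp ((4 + o(1)) K)` integers
contains `K` elements `B` for which `π_K(x, B)` is unbounded. Which `K`-subsets of `V` are obtained is not known. We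
show that they can be chosen such that they do not contain any of the members of an ARBITRARY family `𝓔` of forbidden
configurations, if the family is not too large:

* (1) Let `K ≥ 1`, `log |V| ≥ (4 + δ) K + C`, let `V` miss a residue class modulo every prime `p ≤ exp ((4+δ) K + C)`,
  and let `∑_{E ∈ 𝓔} (C |E| K / |V|) ^ |E| ≤ K`. For a family of sets of `r` elements this is a bound
  `K (|V| / (C r K)) ^ r` for their number, that is a proportion `≥ c (c / K) ^ (r - 1)` of all the `r`-element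
  subsets of `V`; for the graph case `r = 2` it is the proportion `c / K`. Then there is a `K`-element set `B ⊆ V`
  which contains no member of `𝓔` such that `π_K(x, B) ≥ x ^ (1 - ε)` for every `ε > 0` and arbitrarily large `x`.

  For fixed `r` this condition is best possible up to the constant `c`, even if all `K`-tuples of shifts are allowed:
  the sets of `r` elements in the same class of a partition of `V` into less than `K / (r - 1)` classes of equal size
  cannot be avoided by any `K`-element subset.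

* (2) (differences) Let `k ≥ 1`, `K = k + 1`, let `F` be a set of natural numbers and `X ≥ C K exp ((4 + δ) K)` with
  `∑_{d ∈ F, 1 ≤ d ≤ X} d / φ(d) ≤ X / (C K)`. Then there is a `k`-element set `D_k` in `{1, …, X}` such that no
  difference of two elements of `{0} ∪ D_k` belongs to `F` and `π_(k+1)(x, {0} ∪ D_k) ≥ x ^ (1 - ε)` for every
  `ε > 0` and arbitrarily large `x`.

The method is a bound `(C j K / |V|) ^ j` for all the `j`-point correlations of the primes in the measure of Maynard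
and Tao (`Pool.Agent.H522`), and the deletion method.
-/

set_option autoImplicit false

open Finset Filter

namespace Pool.Agent.Results.MP_485179_nt.ForbiddenConfigurations

/-- `π_n(x, D)`: the number of the integers `1 ≤ m ≤ x` for which all `m + d`, `d ∈ D`, are prime -/
noncomputable def piT (x : ℝ) (D : Finset ℕ) : ℕ :=
  Set.ncard {m : ℕ | 1 ≤ m ∧ (m : ℝ) ≤ x ∧ ∀ d ∈ D, (m + d).Prime}

/-- for every `ε > 0` there are arbitrarily large `x` with `π_n(x, D) ≥ x ^ (1 - ε)` -/
def Rich (D : Finset ℕ) : Prop := ∀ ε : ℝ, 0 < ε → ∃ᶠ x : ℝ in atTop, x ^ (1 - ε) ≤ (piT x D : ℝ)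

/-- `V` misses a residue class modulo every prime `p ≤ y` -/
def MissesClasses (y : ℝ) (V : Finset ℕ) : Prop :=
  ∀ p : ℕ, p.Prime → (p : ℝ) ≤ y → ∃ r : ℤ, ∀ v ∈ V, ¬ (p : ℤ) ∣ r + v

theorem piT_finite (x : ℝ) (D : Finset ℕ) :
    {m : ℕ | 1 ≤ m ∧ (m : ℝ) ≤ x ∧ ∀ d ∈ D, (m + d).Prime}.Finite := by
  apply (Set.finite_Iic ⌊x⌋₊).subset
  rintro n ⟨-, hn, -⟩
  exact Nat.le_floor hn

theorem rich_aux (h : ℝ → ℕ) (D : Finset ℕ) (t : ℕ)
    (hh : ∀ x, h x ≤ piT (x + t) D + 1)
    (hf : ∀ ε : ℝ, 0 < ε → ∃ᶠ x : ℝ in atTop, x ^ (1 - ε) ≤ (h x : ℝ)) : Rich D := by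
  intro ε hε
  obtain ⟨e, he⟩ : ∃ e : ℝ, e = min ε 1 := ⟨_, rfl⟩
  have he0 : 0 < e := by rw [he]; exact lt_min hε one_pos
  have he1 : e ≤ 1 := by rw [he]; exact min_le_right _ _
  have heε : e ≤ ε := by rw [he]; exact min_le_left _ _
  have ht : Tendsto (fun x : ℝ => x + t) atTop atTop := tendsto_atTop_add_const_right _ _ tendsto_id
  apply ht.frequently
  have hev : ∀ᶠ x : ℝ in atTop, (x + t) ^ (1 - ε) + 1 ≤ x ^ (1 - e / 2) := by
    have e1 : ∀ᶠ x : ℝ in atTop, (3 : ℝ) ≤ x ^ (e / 2) :=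
      (tendsto_rpow_atTop (by positivity)).eventually_ge_atTop _
    filter_upwards [e1, eventually_ge_atTop (1 : ℝ), eventually_ge_atTop (t : ℝ)] with x h1 h2 h3
    have hx0 : 0 < x := by linarith
    have ht0 : (0 : ℝ) ≤ t := Nat.cast_nonneg t
    have h4 : (x + t) ^ (1 - ε) ≤ 2 * x ^ (1 - e) := by
      calc (x + t) ^ (1 - ε) ≤ (x + t) ^ (1 - e) :=
            Real.rpow_le_rpow_of_exponent_le (by linarith) (by linarith)
        _ ≤ (2 * x) ^ (1 - e) := Real.rpow_le_rpow (by linarith) (by linarith) (by linarith)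
        _ = 2 ^ (1 - e) * x ^ (1 - e) := Real.mul_rpow (by norm_num) hx0.le
        _ ≤ 2 * x ^ (1 - e) := by
            apply mul_le_mul_of_nonneg_right _ (by positivity)
            calc (2 : ℝ) ^ (1 - e) ≤ 2 ^ (1 : ℝ) :=
                  Real.rpow_le_rpow_of_exponent_le (by norm_num) (by linarith)
              _ = 2 := Real.rpow_one _
    have h5 : x ^ (1 - e / 2) = x ^ (e / 2) * x ^ (1 - e) := by
      rw [← Real.rpow_add hx0]
      congr 1
      ring
    have h6 : 1 ≤ x ^ (1 - e) := Real.one_le_rpow h2 (by linarith)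
    rw [h5]
    nlinarith
  refine ((hf (e / 2) (by positivity)).and_eventually hev).mono fun x hx => ?_
  obtain ⟨hx1, hx2⟩ := hx
  have h3 : (h x : ℝ) ≤ piT (x + t) D + 1 := by exact_mod_cast hh x
  linarith

/-- a translate of a prime tuple -/
theorem rich_of_tuple {B : Finset ℤ} (h : Pool.Agent.H522.PrimeTuple B) (t : ℕ) (D : Finset ℕ)
    (hD : ∀ d ∈ D, (t : ℤ) + d ∈ B) : Rich D := by
  refine rich_aux (fun x => Set.ncard {n : ℕ | (n : ℝ) ≤ x ∧ ∀ b ∈ B, ∃ p : ℕ, p.Prime ∧ (p : ℤ) = n + b}) D t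
    (fun x => ?_) h
  have hsub : (fun n : ℕ => n + t) '' {n : ℕ | (n : ℝ) ≤ x ∧ ∀ b ∈ B, ∃ p : ℕ, p.Prime ∧ (p : ℤ) = n + b} ⊆
      insert 0 {m : ℕ | 1 ≤ m ∧ (m : ℝ) ≤ x + t ∧ ∀ d ∈ D, (m + d).Prime} := by
    rintro m ⟨n, ⟨hn1, hn2⟩, rfl⟩
    rcases Nat.eq_zero_or_pos (n + t) with h0 | h0
    · exact Set.mem_insert_iff.2 (Or.inl h0)
    · refine Set.mem_insert_iff.2 (Or.inr ⟨h0, by push_cast; linarith, fun d hd => ?_⟩)
      obtain ⟨p, hp, hpe⟩ := hn2 _ (hD d hd)
      have : p = n + t + d := by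
        have : (p : ℤ) = ((n + t + d : ℕ) : ℤ) := by rw [hpe]; push_cast; ring
        exact_mod_cast this
      rwa [← this]
  have hinj : Function.Injective (fun n : ℕ => n + t) := fun a b hab => Nat.add_right_cancel hab
  calc Set.ncard {n : ℕ | (n : ℝ) ≤ x ∧ ∀ b ∈ B, ∃ p : ℕ, p.Prime ∧ (p : ℤ) = n + b}
      = Set.ncard ((fun n : ℕ => n + t) ''
          {n : ℕ | (n : ℝ) ≤ x ∧ ∀ b ∈ B, ∃ p : ℕ, p.Prime ∧ (p : ℤ) = n + b}) :=
        (Set.ncard_image_of_injective _ hinj).symm
    _ ≤ Set.ncard (insert 0 {m : ℕ | 1 ≤ m ∧ (m : ℝ) ≤ x + t ∧ ∀ d ∈ D, (m + d).Prime}) :=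
        Set.ncard_le_ncard hsub ((piT_finite _ _).insert _)
    _ ≤ _ := Set.ncard_insert_le _ _

open Classical in
/-- **Prime tuples without forbidden configurations.** -/
theorem result (δ : ℝ) (hδ : 0 < δ) : ∃ C : ℝ, 0 < C ∧
    -- (1) arbitrary forbidden configurations
    (∀ K : ℕ, 1 ≤ K → ∀ V : Finset ℕ,
      MissesClasses (Real.exp ((4 + δ) * K + C)) V → (4 + δ) * K + C ≤ Real.log V.card →
      ∀ 𝓔 : Finset (Finset ℕ), (∀ E ∈ 𝓔, E.Nonempty) →
      ∑ E ∈ 𝓔, (C * (E.card : ℝ) * K / V.card) ^ E.card ≤ K →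
      ∃ B ⊆ V, B.card = K ∧ Rich B ∧ ∀ E ∈ 𝓔, ¬ E ⊆ B) ∧
    -- (2) forbidden differences
    (∀ k : ℕ, 1 ≤ k → ∀ X : ℕ, C * (k + 1) * Real.exp ((4 + δ) * (k + 1)) ≤ X → ∀ F : Set ℕ,
      ∑ d ∈ (Icc 1 X).filter (fun d => d ∈ F), (d : ℝ) / (Nat.totient d : ℝ) ≤ X / (C * (k + 1)) →
      ∃ D ⊆ Icc 1 X, D.card = k ∧ Rich (insert 0 D) ∧
        ∀ a ∈ insert 0 D, ∀ b ∈ insert 0 D, b < a → a - b ∉ F) := by
  obtain ⟨C, hC, h⟩ := Pool.Agent.H522.robust δ hδ
  refine ⟨C, hC, fun K hK V hV hlog 𝓔 hne hsum => ?_, fun k hk X hX F hF => ?_⟩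
  · -- the embedding of the natural numbers in the integers
    let i : ℕ ↪ ℤ := ⟨fun n => (n : ℤ), fun _ _ hab => Int.ofNat.inj hab⟩
    have hcard : ∀ E : Finset ℕ, (E.map i).card = E.card := fun E => Finset.card_map i
    obtain ⟨B, hB1, hB2, hB3, hB4⟩ := (h K hK).1 (V.map i) (by
      intro p hp hpl
      obtain ⟨r, hr⟩ := hV p hp hpl
      refine ⟨r, fun s hs => ?_⟩
      obtain ⟨v, hv, rfl⟩ := Finset.mem_map.1 hs
      exact hr v hv) (by rw [hcard]; exact hlog) (𝓔.image (fun E => E.map i)) (by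
      intro E hE
      obtain ⟨E', hE', rfl⟩ := Finset.mem_image.1 hE
      exact (hne E' hE').map) (by
      rw [Finset.sum_image (fun a _ b _ hab => Finset.map_injective i hab)]
      simpa only [hcard] using hsum)
    obtain ⟨B', hB', rfl⟩ : ∃ B' ⊆ V, B'.map i = B := by
      refine ⟨V.filter (fun v => i v ∈ B), Finset.filter_subset _ _, ?_⟩
      ext b
      rw [Finset.mem_map]
      constructor
      · rintro ⟨v, hv, rfl⟩
        exact (Finset.mem_filter.1 hv).2
      · intro hb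
        obtain ⟨v, hv, rfl⟩ := Finset.mem_map.1 (hB1 hb)
        exact ⟨v, Finset.mem_filter.2 ⟨hv, hb⟩, rfl⟩
    refine ⟨B', hB', by rw [← hcard]; exact hB2, rich_of_tuple hB3 0 B' fun d hd => ?_, fun E hE hEB => ?_⟩
    · rw [Nat.cast_zero, zero_add]
      exact Finset.mem_map.2 ⟨d, hd, rfl⟩
    · exact hB4 _ (Finset.mem_image_of_mem _ hE) (Finset.map_subset_map.2 hEB)
  · obtain ⟨B, hB1, hB2, hB3, hB4⟩ := (h (k + 1) (by omega)).2 X (by push_cast; exact hX) F (by
      intro s hs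
      push_cast
      refine le_trans ?_ hF
      apply Finset.sum_le_sum_of_subset_of_nonneg
      · intro d hd
        rw [Finset.mem_filter, Finset.mem_Icc]
        exact ⟨(hs d hd).2, (hs d hd).1⟩
      · intro d _ _
        positivity)
    have hBne : B.Nonempty := Finset.card_pos.1 (by omega)
    obtain ⟨b0, hb0⟩ : ∃ b0 : ℤ, b0 = B.min' hBne := ⟨_, rfl⟩
    have hb0B : b0 ∈ B := by rw [hb0]; exact Finset.min'_mem _ _
    have hmin : ∀ b ∈ B, b0 ≤ b := fun b hb => by rw [hb0]; exact Finset.min'_le _ _ hb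
    have hb1 : 1 ≤ b0 := (Finset.mem_Icc.1 (hB1 hb0B)).1
    have hinj : Set.InjOn (fun b : ℤ => (b - b0).toNat) (B.erase b0 : Finset ℤ) := by
      intro a ha b hb hab
      have ha' := hmin a (Finset.mem_of_mem_erase ha)
      have hb' := hmin b (Finset.mem_of_mem_erase hb)
      simp only at hab
      omega
    have hmem : ∀ d ∈ insert 0 ((B.erase b0).image (fun b : ℤ => (b - b0).toNat)),
        b0 + (d : ℤ) ∈ B := by
      intro d hd
      rcases Finset.mem_insert.1 hd with rfl | hd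
      · simpa using hb0B
      · obtain ⟨b, hb, rfl⟩ := Finset.mem_image.1 hd
        have h1 := hmin b (Finset.mem_of_mem_erase hb)
        have h2 : b0 + (((b - b0).toNat : ℕ) : ℤ) = b := by omega
        rw [h2]
        exact Finset.mem_of_mem_erase hb
    refine ⟨(B.erase b0).image (fun b : ℤ => (b - b0).toNat), ?_, ?_, ?_, ?_⟩
    · intro d hd
      obtain ⟨b, hb, rfl⟩ := Finset.mem_image.1 hd
      have h1 := hmin b (Finset.mem_of_mem_erase hb)
      have h2 := Finset.ne_of_mem_erase hb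
      have h3 := (Finset.mem_Icc.1 (hB1 (Finset.mem_of_mem_erase hb))).2
      rw [Finset.mem_Icc]
      omega
    · rw [Finset.card_image_of_injOn hinj, Finset.card_erase_of_mem hb0B, hB2]
      rfl
    · refine rich_of_tuple hB3 b0.toNat _ fun d hd => ?_
      have h1 : ((b0.toNat : ℕ) : ℤ) = b0 := Int.toNat_of_nonneg (by omega)
      rw [h1]
      exact hmem d hd
    · intro a ha b hb hab
      have h1 := hB4 _ (hmem a ha) _ (hmem b hb) (by omega)
      have h2 : (b0 + (a : ℤ) - (b0 + (b : ℤ))).toNat = a - b := by omega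
      rwa [h2] at h1

end Pool.Agent.Results.MP_485179_nt.ForbiddenConfigurations
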