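import Pool.Agent.H561.E2.T9

/-!
# The Hardy–Littlewood formula with a log-power saving for almost all sets of short shifts, one prime and `k` products of two
primes

For all `k` and `A` there are `u` and `G` such that for all `E` and all large `x` the following holds. Let `S` be ANY set of
primes in `((log x) ^ u, (log x) ^ E]`, and put `Λ_S(m) = ∑_{p ∈ S, p ∣ m} Λ(m / p)`. Let `[y, y + H)` be ANY interval of integers
of length `H ≥ (log x) ^ (E + G)` and `(N₁, N₂]` ANY interval in `[0, x]`, with `0 ≤ N₁ + y` and `N₂ + y + H ≤ x`. For all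
`k`-element sets `𝒟` of nonzero integers in `[y, y + H)`, except at most `H ^ k / (log x) ^ A`,

`| ∑_{N₁ < n ≤ N₂} Λ(n) ∏_{d ∈ 𝒟} Λ_S(n + d) - 𝔖({0} ∪ 𝒟) (∑_{p ∈ S} 1 / p) ^ k (N₂ - N₁) | ≤ x / (log x) ^ A`,

where `𝔖` is the singular series of the question. In particular (`N₁ = y = 0`) this is a result on the sets `𝒟` in
`[2, (log x) ^ (E + G)]`.

Proof: `Pool.Agent.H561.E2` (circle method in short intervals with arbitrary weights; the members of `{0} ∪ 𝒟` are treated one
after the other).
-/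

set_option autoImplicit false

namespace Pool.Agent.Results.MP_485179_nt.LogPowerSavingAlmostAllSets

open Finset Filter

/-- `Λ_S(m) = ∑_{p ∈ S, p ∣ m} Λ(m / p)` for `m ≥ 1` -/
noncomputable def Λ₂ (S : Finset ℕ) (m : ℕ) : ℝ := ∑ p ∈ S, if p ∣ m then ArithmeticFunction.vonMangoldt (m / p) else 0

/-- `∑_{N₁ < n ≤ N₂} Λ(n) ∏_{d ∈ 𝒟} Λ_S(n + d)` (used only for `n + d ≥ 1`) -/
noncomputable def weightedCount (S : Finset ℕ) (N₁ N₂ : ℕ) (D : Finset ℤ) : ℝ :=
  ∑ n ∈ Ioc N₁ N₂, ArithmeticFunction.vonMangoldt n * ∏ d ∈ D, Λ₂ S ((n : ℤ) + d).toNat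

open Classical in
/-- the number of the residue classes modulo `p` which meet `{0} ∪ 𝒟` -/
noncomputable def ν (D : Finset ℤ) (p : ℕ) : ℕ := ((insert (0 : ℤ) D).image (fun a : ℤ => (a : ZMod p))).card

/-- the singular series of `{0} ∪ 𝒟`, `0 ∉ 𝒟` -/
noncomputable def singularSeries (D : Finset ℤ) : ℝ :=
  ∏' p : Nat.Primes, (1 - 1 / ((p : ℕ) : ℝ))⁻¹ ^ (D.card + 1) * (1 - (ν D p : ℝ) / ((p : ℕ) : ℝ))

/-- the main term -/
noncomputable def expected (S : Finset ℕ) (N₁ N₂ : ℕ) (D : Finset ℤ) : ℝ :=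
  singularSeries D * (∑ p ∈ S, 1 / (p : ℝ)) ^ D.card * ((N₂ : ℝ) - N₁)

open Classical in
/-- the `k`-element sets of nonzero integers in `[y, y + H)` for which the formula does not hold with the error
`x / (log x) ^ A` -/
noncomputable def exceptional (k A : ℕ) (S : Finset ℕ) (x N₁ N₂ H : ℕ) (y : ℤ) : Finset (Finset ℤ) :=
  (powersetCard k (Ico y (y + H))).filter
    (fun D => (0 : ℤ) ∉ D ∧ ¬ |weightedCount S N₁ N₂ D - expected S N₁ N₂ D| ≤ x / Real.log x ^ A)

/-- the increasing enumeration of a set with `k` elements -/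
noncomputable def en (k : ℕ) (D : Finset ℤ) : Fin k → ℤ := if hD : D.card = k then D.orderEmbOfFin hD else fun _ => 0

lemma en_inj {k : ℕ} {D : Finset ℤ} (hD : D.card = k) : Function.Injective (en k D) := by
  unfold en
  rw [dif_pos hD]
  exact (D.orderEmbOfFin hD).injective

lemma en_image {k : ℕ} {D : Finset ℤ} (hD : D.card = k) : univ.image (en k D) = D := by
  classical
  unfold en
  rw [dif_pos hD]
  apply coe_injective
  rw [coe_image, coe_univ, Set.image_univ]
  exact D.range_orderEmbOfFin hD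

/-- **The Hardy–Littlewood formula for a prime and products of two primes, log-power saving, almost all sets of short
shifts.** -/
theorem result (k A : ℕ) : ∃ u G : ℕ, ∀ E : ℕ, ∀ᶠ x : ℕ in atTop, ∀ (S : Finset ℕ) (N₁ N₂ H : ℕ) (y : ℤ),
      (∀ p ∈ S, p.Prime ∧ Real.log x ^ u < p ∧ (p : ℝ) ≤ Real.log x ^ E) → N₁ < N₂ → N₂ ≤ x →
      Real.log x ^ (E + G) ≤ H → 0 ≤ (N₁ : ℤ) + y → (N₂ : ℤ) + y + H ≤ x →
        ((exceptional k A S x N₁ N₂ H y).card : ℝ) ≤ (H : ℝ) ^ k / Real.log x ^ A := by
  classical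
  obtain ⟨a, G, hT⟩ := Pool.Agent.H561.E2.tupI k (fun _ => 1) (fun _ => one_ne_zero) A
  refine ⟨a, G, fun E => ?_⟩
  obtain ⟨X₀, hT⟩ := hT E
  refine Filter.eventually_atTop.2 ⟨X₀, fun x hx S N₁ N₂ H y hS hN12 hN2 hH hy1 hy2 => ?_⟩
  have h0 := hT x hx (fun _ => S) (fun _ => hS) H hH N₁ N₂ (fun _ => y) hN12 hN2 (by
    intro i n hn
    rw [mem_Ioc] at hn
    have h2 : (N₁ : ℤ) < n := by exact_mod_cast hn.1
    have h3 : (n : ℤ) ≤ N₂ := by exact_mod_cast hn.2
    constructor <;> linarith)
  refine le_trans ?_ h0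
  have hmap : (exceptional k A S x N₁ N₂ H y).card ≤ ((Fintype.piFinset (fun i : Fin k => Ico y (y + H))).filter (fun h =>
      Pool.Agent.H561.E2.NDeg (fun _ => 1) h ∧
      ¬ |Pool.Agent.H561.E2.WL (fun _ => 1) (fun _ => S) N₁ N₂ h - Pool.Agent.H561.E2.Mn (fun _ => 1) (fun _ => S) N₁ N₂ h| ≤
        x / Real.log x ^ A)).card := by
    apply card_le_card_of_injOn (en k)
    · intro D hD
      rw [mem_coe] at hD
      unfold exceptional at hD
      rw [mem_filter, mem_powersetCard] at hD
      obtain ⟨⟨hDs, hDk⟩, h0D, hne⟩ := hD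
      have him := en_image hDk
      have hinj := en_inj hDk
      have hmem : ∀ i, en k D i ∈ D := fun i => by
        have : en k D i ∈ univ.image (en k D) := mem_image_of_mem _ (mem_univ i)
        rwa [him] at this
      rw [mem_coe, mem_filter, Fintype.mem_piFinset]
      refine ⟨fun i => hDs (hmem i), ⟨fun i h => h0D (h ▸ hmem i), ?_⟩, ?_⟩
      · intro i j hij h6
        unfold Pool.Agent.H561.E2.DD at h6
        exact hij (hinj (by linarith))
      · have e1 : Pool.Agent.H561.E2.WL (fun _ => 1) (fun _ => S) N₁ N₂ (en k D) = weightedCount S N₁ N₂ D := by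
          unfold Pool.Agent.H561.E2.WL weightedCount
          apply sum_congr rfl
          intro n _
          congr 1
          have h7 : ∏ d ∈ D, Λ₂ S ((n : ℤ) + d).toNat = ∏ d ∈ univ.image (en k D), Λ₂ S ((n : ℤ) + d).toNat := by rw [him]
          rw [h7, prod_image (fun a _ b _ h => hinj h)]
          apply prod_congr rfl
          intro i _
          unfold Pool.Agent.H561.E2.LFo
          rw [one_mul]
          rfl
        have e2 : Pool.Agent.H561.E2.Mn (fun _ => 1) (fun _ => S) N₁ N₂ (en k D) = expected S N₁ N₂ D := by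
          unfold Pool.Agent.H561.E2.Mn expected
          rw [← Pool.Agent.H561.E2.singD_eq, prod_const, card_univ, Fintype.card_fin, hDk]
          congr 2
          unfold Pool.Agent.H561.E2.singD singularSeries
          apply tprod_congr
          intro p
          rw [← Pool.Agent.H561.E2.occ_eq (en k D) p p.2, hDk]
          have : Pool.Agent.H561.E2.occ (en k D) (p : ℕ) = ν D p := by
            unfold Pool.Agent.H561.E2.occ ν
            rw [him]
          rw [this]
        rw [e1, e2]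
        exact hne
    · intro D hD D' hD' h
      rw [mem_coe] at hD hD'
      unfold exceptional at hD hD'
      rw [mem_filter, mem_powersetCard] at hD hD'
      rw [← en_image hD.1.2, ← en_image hD'.1.2, h]
  exact_mod_cast hmap

end Pool.Agent.Results.MP_485179_nt.LogPowerSavingAlmostAllSets
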