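import Mathlib
import Pool.Agent.H606.TP.Conv

set_option autoImplicit false

/-!
# The Hardy–Littlewood conjecture for short shifts is a statement about large tuples

`Upper n A C` (`Lower n A C`): for the sets `D` of `n - 1` shifts in `[2, (log x) ^ A]` the number of the
prime tuples with the pattern `{0} ∪ D` is at most (at least) `C + o(1)` (`C - o(1)`) times the
Hardy–Littlewood prediction, uniformly in `D`. The known upper bound of the sieve is `Upper n A (2 ^ n n!)`.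

The constants are (super)multiplicative: `Upper (j n) A (C ^ j)` implies `Upper n A' C`, in particular
the sharp upper half holds for all `n` and all powers of `log x` as soon as some bound with the constant
`e ^ (o(n))` holds for a sparse set of large `n`; and a lower bound for `a n`-tuples together with an
upper bound for `b n`-tuples, `b > a`, gives a lower bound for `n`-tuples. Consequences: the question is
equivalent to its restriction to tuples of size `n!`, `n ≥ n₀`, with shifts up to a power of `log x` which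
tends to infinity with `n` arbitrarily slowly, and implies the asymptotic for all shifts up to
`(log x) ^ B`, for every `B`; and an upper bound with the constant `e ^ (o(n))` for large `n` implies the
asymptotic formula for almost all sets of shifts, for every `k`.

Proof. Let `G` be the set of the `m ≤ x` for which `m` and all `m + d` are prime. The `j`-th moment of
the number of the elements of `G` in the window `(u, u + H]` counts the prime tuples whose patterns are the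
unions of `j` translates of `{0} ∪ D`; for `H` larger than `(log x) ^ n` these are mostly disjoint, and the
mean of the singular series over these unions is asymptotically `𝔖 ^ j`. Hölder's inequality compares the
moments with the first one.
-/

namespace Pool.Agent.Results.MP_485179_nt.TensorPower

open Finset Filter

/-- the number of residue classes modulo `p` which meet `D` -/
def nu (D : Finset ℕ) (p : ℕ) : ℕ := (D.image (· % p)).card

/-- the singular series of `D` -/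
noncomputable def 𝔖 (D : Finset ℕ) : ℝ :=
  ∏' p : Nat.Primes, (1 - (nu D p : ℝ) / ((p : ℕ) : ℝ)) / (1 - 1 / ((p : ℕ) : ℝ)) ^ D.card

/-- the number of integers `1 ≤ m ≤ x` such that all `m + d`, `d ∈ D`, are prime -/
noncomputable def count (x : ℝ) (D : Finset ℕ) : ℕ :=
  ((Icc 1 ⌊x⌋₊).filter (fun m => ∀ d ∈ D, (m + d).Prime)).card

/-- For every `ε > 0`, all large `x` and all sets `D` of `n - 1` integers in `[2, (log x) ^ A]` with
`𝔖 ({0} ∪ D) ≠ 0` the number of the prime tuples is at most `(C + ε) 𝔖 ({0} ∪ D) x / (log x) ^ n`. -/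
def Upper (n : ℕ) (A C : ℝ) : Prop := ∀ ε : ℝ, 0 < ε → ∃ X : ℝ, ∀ x : ℝ, X ≤ x → ∀ D : Finset ℕ,
  D.card + 1 = n → (∀ d ∈ D, 2 ≤ d ∧ (d : ℝ) ≤ Real.log x ^ A) → 𝔖 (insert 0 D) ≠ 0 →
    (count x (insert 0 D) : ℝ) ≤ (C + ε) * (𝔖 (insert 0 D) * x / Real.log x ^ n)

/-- For every `ε > 0`, all large `x` and all sets `D` of `n - 1` integers in `[2, (log x) ^ A]` with
`𝔖 ({0} ∪ D) ≠ 0` the number of the prime tuples is at least `(C - ε) 𝔖 ({0} ∪ D) x / (log x) ^ n`. -/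
def Lower (n : ℕ) (A C : ℝ) : Prop := ∀ ε : ℝ, 0 < ε → ∃ X : ℝ, ∀ x : ℝ, X ≤ x → ∀ D : Finset ℕ,
  D.card + 1 = n → (∀ d ∈ D, 2 ≤ d ∧ (d : ℝ) ≤ Real.log x ^ A) → 𝔖 (insert 0 D) ≠ 0 →
    (C - ε) * (𝔖 (insert 0 D) * x / Real.log x ^ n) ≤ (count x (insert 0 D) : ℝ)

/-- the statement of the question -/
def Question : Prop := ∀ k : ℕ, 1 ≤ k → ∀ ε : ℝ, 0 < ε → ∃ X : ℝ, ∀ x : ℝ, X ≤ x → ∀ D : Finset ℕ,
  D.card = k → (∀ d ∈ D, 2 ≤ d ∧ (d : ℝ) ≤ Real.log x ^ (k + 1)) → 𝔖 (insert 0 D) ≠ 0 →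
    |(count x (insert 0 D) : ℝ) / (𝔖 (insert 0 D) * x / Real.log x ^ (k + 1)) - 1| ≤ ε

/-- the asymptotic formula of the question for almost all sets of shifts: for every `k ≥ 1`, `ε > 0` and
all large `x` it holds up to the factor `1 ± ε` for all but at most `ε ((log x) ^ (k + 1)) ^ k` of the
`k`-element sets `D ⊆ [2, (log x) ^ (k + 1)]` with `𝔖 ({0} ∪ D) ≠ 0` -/
def AlmostAll : Prop := ∀ k : ℕ, 1 ≤ k → ∀ ε : ℝ, 0 < ε → ∃ X : ℝ, ∀ x : ℝ, X ≤ x →
  ({D : Finset ℕ | D.card = k ∧ (∀ d ∈ D, 2 ≤ d ∧ (d : ℝ) ≤ Real.log x ^ (k + 1)) ∧ 𝔖 (insert 0 D) ≠ 0 ∧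
    ε < |(count x (insert 0 D) : ℝ) / (𝔖 (insert 0 D) * x / Real.log x ^ (k + 1)) - 1|}.ncard : ℝ) ≤
      ε * (Real.log x ^ (k + 1)) ^ k

section proofs

open Pool.Agent.H606.TP Pool.Agent.H387R2 Pool.Agent.H387R2.Uni Pool.Agent.TH891.SG

lemma S_eq (D : Finset ℕ) : 𝔖 D = CT D := rfl

lemma count_nat (N : ℕ) (D : Finset ℕ) : count (N : ℝ) D = pc D N := by
  unfold count pc
  rw [Nat.floor_natCast]

lemma count_real (x : ℝ) (D : Finset ℕ) : count x D = pc D ⌊x⌋₊ := rfl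

lemma upper_nat {r : ℕ} {A C : ℝ} (h : Upper r A C) : UN r A C := by
  intro ε hε
  obtain ⟨X, hX⟩ := h ε hε
  filter_upwards [eventually_ge_atTop ⌈X⌉₊] with N hN T hT h0 hTA hadm
  have h1 := hX N ((Nat.le_ceil X).trans (by exact_mod_cast hN)) (T.erase 0)
    (by rw [card_erase_of_mem h0, hT]; have := card_pos.2 ⟨0, h0⟩; omega)
    (fun d hd => ⟨two_le_of h0 hadm (mem_of_mem_erase hd) (ne_of_mem_erase hd), hTA d (mem_of_mem_erase hd)⟩)
    (by rw [insert_erase h0, S_eq]; exact ((CT_pos_iff T).2 hadm).ne')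
  rw [insert_erase h0, count_nat, S_eq] at h1
  rw [← mul_div_assoc]
  exact h1

lemma lower_nat {r : ℕ} {A C : ℝ} (h : Lower r A C) : LN r A C := by
  intro ε hε
  obtain ⟨X, hX⟩ := h ε hε
  filter_upwards [eventually_ge_atTop ⌈X⌉₊] with N hN T hT h0 hTA hadm
  have h1 := hX N ((Nat.le_ceil X).trans (by exact_mod_cast hN)) (T.erase 0)
    (by rw [card_erase_of_mem h0, hT]; have := card_pos.2 ⟨0, h0⟩; omega)
    (fun d hd => ⟨two_le_of h0 hadm (mem_of_mem_erase hd) (ne_of_mem_erase hd), hTA d (mem_of_mem_erase hd)⟩)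
    (by rw [insert_erase h0, S_eq]; exact ((CT_pos_iff T).2 hadm).ne')
  rw [insert_erase h0, count_nat, S_eq] at h1
  rw [← mul_div_assoc]
  exact h1

lemma adm_of {D : Finset ℕ} (h : 𝔖 D ≠ 0) : Adm D := by
  by_contra h1
  exact h (CT_not_adm h1)

/-- the data of a set of shifts -/
lemma data {n : ℕ} {A A' x : ℝ} {D : Finset ℕ} (hc : D.card + 1 = n)
    (hD : ∀ d ∈ D, 2 ≤ d ∧ (d : ℝ) ≤ Real.log x ^ A') (hAA : Real.log x ^ A' ≤ Real.log ⌊x⌋₊ ^ A) :
    (insert 0 D).card = n ∧ (∀ t ∈ insert 0 D, (t : ℝ) ≤ Real.log ⌊x⌋₊ ^ A) := by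
  constructor
  · rw [card_insert_of_notMem, hc]
    intro h
    have := (hD 0 h).1
    omega
  · intro t ht
    rcases mem_insert.1 ht with rfl | ht
    · push_cast
      exact Real.rpow_nonneg (Real.log_natCast_nonneg _) _
    · exact (hD t ht).2.trans hAA

lemma upper_real {r : ℕ} {A A' C : ℝ} (hA : A' < A) (hC : 0 ≤ C) (h : UN r A C) : Upper r A' C := by
  intro ε hε
  -- `(C + ε/2)(1 + η) ≤ C + ε`
  set η : ℝ := ε / (2 * (C + ε)) with hη
  have hη0 : 0 < η := by positivity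
  have hη1 : (C + ε / 2) * (1 + η) ≤ C + ε := by
    have h1 : η * (C + ε) = ε / 2 := by rw [hη]; field_simp
    nlinarith
  have e1 : ∀ᶠ x : ℝ in atTop, ((⌊x⌋₊ : ℝ) / Real.log ⌊x⌋₊ ^ r) / (x / Real.log x ^ r) < 1 + η :=
    (main_ratio r).eventually_lt_const (by linarith)
  have e2 := tendsto_nat_floor_atTop (α := ℝ) |>.eventually (h (ε / 2) (by positivity))
  obtain ⟨X, hX⟩ := eventually_atTop.1 (e1.and (e2.and ((exp_ratio hA).and (eventually_ge_atTop (2:ℝ)))))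
  refine ⟨X, fun x hx D hDc hD hS => ?_⟩
  obtain ⟨h1, h2, h3, h4⟩ := hX x hx
  obtain ⟨d1, d2⟩ := data hDc hD h3
  have h5 := h2 (insert 0 D) d1 (mem_insert_self 0 D) d2 (adm_of hS)
  rw [count_real, S_eq]
  have hlog : 0 < Real.log x := Real.log_pos (by linarith)
  have hx0 : 0 < x := by linarith
  have hm : 0 < x / Real.log x ^ r := by positivity
  rw [div_lt_iff₀ hm] at h1
  have hCT := CT_nonneg (insert 0 D)
  calc (pc (insert 0 D) ⌊x⌋₊ : ℝ) ≤ (C + ε / 2) * (CT (insert 0 D) * ((⌊x⌋₊ : ℝ) / Real.log ⌊x⌋₊ ^ r)) := h5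
    _ ≤ (C + ε / 2) * (CT (insert 0 D) * ((1 + η) * (x / Real.log x ^ r))) := by gcongr
    _ = ((C + ε / 2) * (1 + η)) * (CT (insert 0 D) * (x / Real.log x ^ r)) := by ring
    _ ≤ (C + ε) * (CT (insert 0 D) * (x / Real.log x ^ r)) := by
        apply mul_le_mul_of_nonneg_right hη1 (by positivity)
    _ = _ := by rw [← mul_div_assoc]

lemma lower_real {r : ℕ} {A A' C : ℝ} (hA : A' < A) (hC : 0 ≤ C) (h : LN r A C) : Lower r A' C := by
  intro ε hε
  by_cases hCε : C - ε ≤ 0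
  · refine ⟨2, fun x hx D _ _ _ => ?_⟩
    have hlog : 0 < Real.log x := Real.log_pos (by linarith)
    have hx0 : 0 < x := by linarith
    have h1 : 0 ≤ 𝔖 (insert 0 D) * x / Real.log x ^ r := by
      have := CT_nonneg (insert 0 D)
      rw [S_eq]; positivity
    exact (mul_nonpos_of_nonpos_of_nonneg hCε h1).trans (Nat.cast_nonneg _)
  push Not at hCε
  have hC0 : 0 < C := by linarith
  -- `(C - ε/2)(1 - η) ≥ C - ε`
  set η : ℝ := ε / (2 * C) with hη
  have hη0 : 0 < η := by positivity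
  have hη1 : C - ε ≤ (C - ε / 2) * (1 - η) := by
    have h1 : η * C = ε / 2 := by rw [hη]; field_simp
    nlinarith
  have e1 : ∀ᶠ x : ℝ in atTop, 1 - η < ((⌊x⌋₊ : ℝ) / Real.log ⌊x⌋₊ ^ r) / (x / Real.log x ^ r) :=
    (main_ratio r).eventually_const_lt (by linarith)
  have e2 := tendsto_nat_floor_atTop (α := ℝ) |>.eventually (h (ε / 2) (by positivity))
  obtain ⟨X, hX⟩ := eventually_atTop.1 (e1.and (e2.and ((exp_ratio hA).and (eventually_ge_atTop (2:ℝ)))))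
  refine ⟨X, fun x hx D hDc hD hS => ?_⟩
  obtain ⟨h1, h2, h3, h4⟩ := hX x hx
  obtain ⟨d1, d2⟩ := data hDc hD h3
  have h5 := h2 (insert 0 D) d1 (mem_insert_self 0 D) d2 (adm_of hS)
  rw [count_real, S_eq]
  have hlog : 0 < Real.log x := Real.log_pos (by linarith)
  have hx0 : 0 < x := by linarith
  have hm : 0 < x / Real.log x ^ r := by positivity
  rw [lt_div_iff₀ hm] at h1
  have hCT := CT_nonneg (insert 0 D)
  have hC2 : 0 < C - ε / 2 := by linarith
  calc (C - ε) * (CT (insert 0 D) * x / Real.log x ^ r)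
      = (C - ε) * (CT (insert 0 D) * (x / Real.log x ^ r)) := by ring
    _ ≤ ((C - ε / 2) * (1 - η)) * (CT (insert 0 D) * (x / Real.log x ^ r)) := by
        apply mul_le_mul_of_nonneg_right hη1 (by positivity)
    _ = (C - ε / 2) * (CT (insert 0 D) * ((1 - η) * (x / Real.log x ^ r))) := by ring
    _ ≤ (C - ε / 2) * (CT (insert 0 D) * ((⌊x⌋₊ : ℝ) / Real.log ⌊x⌋₊ ^ r)) := by gcongr
    _ ≤ _ := h5

theorem part1 (n j : ℕ) (A A' C : ℝ) (hn : 2 ≤ n) (hj : 1 ≤ j) (hC : 0 ≤ C) (hnA : (n:ℝ) < A) (hA : A' < A)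
    (h : Upper (j * n) A (C ^ j)) : Upper n A' C := by
  obtain ⟨A'', h1, h2⟩ := exists_between hA
  obtain ⟨m, rfl⟩ : ∃ m, j = m + 1 := ⟨j - 1, by omega⟩
  exact upper_real h1 hC (up_of n m hn hC hnA h2 (upper_nat h))

theorem part2 (n a b : ℕ) (A A' c C κ : ℝ) (hn : 2 ≤ n) (ha : 1 ≤ a) (hab : a < b) (hc : 0 ≤ c) (hC : 0 < C)
    (hκ : 0 ≤ κ) (h : κ ^ (b - a) * C ^ (a - 1) ≤ c ^ (b - 1)) (hnA : (n:ℝ) < A) (hA : A' < A)
    (hl : Lower (a * n) A c) (hu : Upper (b * n) A C) : Lower n A' κ := by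
  obtain ⟨A'', h1, h2⟩ := exists_between hA
  exact lower_real h1 hκ (low_of n a b hn ha hab hC hκ hc h hnA h2 (lower_nat hl) (upper_nat hu))

lemma main_nonneg {x : ℝ} (hx : 1 ≤ x) (D : Finset ℕ) (n : ℕ) : 0 ≤ 𝔖 D * x / Real.log x ^ n := by
  have h1 := CT_nonneg D
  have h2 : 0 ≤ Real.log x := Real.log_nonneg hx
  rw [S_eq]
  positivity

lemma upper_mono {n : ℕ} {A C C' : ℝ} (hC : C ≤ C') (h : Upper n A C) : Upper n A C' := by
  intro ε hε
  obtain ⟨X, hX⟩ := h ε hε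
  refine ⟨max X 1, fun x hx D hD hD2 hS => (hX x ((le_max_left _ _).trans hx) D hD hD2 hS).trans ?_⟩
  exact mul_le_mul_of_nonneg_right (by linarith) (main_nonneg ((le_max_right _ _).trans hx) _ _)

/-- the choice of a large size -/
lemma pick {S : Set ℕ} {A : ℕ → ℝ} (hS : ∀ n : ℕ, 1 ≤ n → {r : ℕ | r ∈ S ∧ n ∣ r}.Infinite)
    (hA : Tendsto A atTop atTop) {P : ℕ → Prop} (hP : ∀ᶠ r in atTop, P r) {n : ℕ} (hn : 1 ≤ n) (B : ℝ) :
    ∃ j : ℕ, 1 ≤ j ∧ j * n ∈ S ∧ B < A (j * n) ∧ P (j * n) := by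
  obtain ⟨R, hR⟩ := eventually_atTop.1 ((hA.eventually_gt_atTop B).and (hP.and (eventually_ge_atTop 1)))
  obtain ⟨r, ⟨hr1, j, rfl⟩, hr2⟩ := (hS n hn).exists_gt R
  obtain ⟨h1, h2, h3⟩ := hR (n * j) hr2.le
  refine ⟨j, ?_, ?_, ?_, ?_⟩
  · rcases Nat.eq_zero_or_pos j with rfl | h
    · simp at h3
    · exact h
  · rwa [mul_comm]
  · rwa [mul_comm]
  · rwa [mul_comm]

theorem part3 (S : Set ℕ) (A C : ℕ → ℝ) (hS : ∀ n : ℕ, 1 ≤ n → {r : ℕ | r ∈ S ∧ n ∣ r}.Infinite)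
    (hA : Tendsto A atTop atTop) (hC : ∀ ε : ℝ, 0 < ε → ∀ᶠ r : ℕ in atTop, C r ≤ Real.exp (ε * r))
    (h : ∀ r ∈ S, 2 ≤ r → Upper r (A r) (C r)) (n : ℕ) (B : ℝ) (hn : 2 ≤ n) : Upper n B 1 := by
  intro ε hε
  have hn0 : (0:ℝ) < n := by positivity
  set ε₀ : ℝ := Real.log (1 + ε / 2) / n with hε₀
  have hε₀0 : 0 < ε₀ := div_pos (Real.log_pos (by linarith)) hn0
  have hexp : Real.exp (ε₀ * n) = 1 + ε / 2 := by
    rw [hε₀, div_mul_cancel₀ _ hn0.ne', Real.exp_log (by linarith)]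
  obtain ⟨j, hj, hjS, hjA, hjC⟩ := pick hS hA (hC ε₀ hε₀0) (by omega : 1 ≤ n) (max B n)
  have h1 : 2 ≤ j * n := by nlinarith
  have h2 := h (j * n) hjS h1
  have h3 : C (j * n) ≤ (1 + ε / 2) ^ j := by
    refine hjC.trans (le_of_eq ?_)
    rw [← hexp, ← Real.exp_nat_mul]
    congr 1
    push_cast
    ring
  have h4 := part1 n j (A (j * n)) B (1 + ε / 2) hn hj (by linarith) (lt_of_le_of_lt (le_max_right _ _) hjA)
    (lt_of_le_of_lt (le_max_left _ _) hjA) (upper_mono h3 h2)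
  obtain ⟨X, hX⟩ := h4 (ε / 2) (by positivity)
  refine ⟨X, fun x hx D hD hD2 hS => ?_⟩
  have h5 := hX x hx D hD hD2 hS
  have h6 : 1 + ε / 2 + ε / 2 = 1 + ε := by ring
  rwa [h6] at h5

theorem part4 (S : Set ℕ) (A c : ℕ → ℝ) (hS : ∀ n : ℕ, 1 ≤ n → {r : ℕ | r ∈ S ∧ n ∣ r}.Infinite)
    (hA : Tendsto A atTop atTop) (hc : ∀ ε : ℝ, 0 < ε → ∀ᶠ r : ℕ in atTop, 1 - ε ≤ c r)
    (hu : ∀ (n : ℕ) (B : ℝ), 2 ≤ n → Upper n B 1)
    (h : ∀ r ∈ S, 2 ≤ r → Lower r (A r) (c r)) (n : ℕ) (B : ℝ) (hn : 2 ≤ n) : Lower n B 1 := by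
  intro ε hε
  by_cases hε1 : 1 ≤ ε
  · refine ⟨1, fun x hx D _ _ _ => ?_⟩
    exact (mul_nonpos_of_nonpos_of_nonneg (by linarith) (main_nonneg hx _ _)).trans (Nat.cast_nonneg _)
  push Not at hε1
  obtain ⟨j, hj, hjS, hjA, hjc⟩ := pick hS hA (hc (ε / 4) (by positivity)) (by omega : 1 ≤ n) (max B n)
  have h1 : 2 ≤ j * n := by nlinarith
  have h2 := h (j * n) hjS h1
  set c₀ : ℝ := c (j * n) with hc₀
  have hc₀0 : 0 < c₀ := by linarith
  -- `κ ^ (b - j) ≤ c₀ ^ (b - 1)` for large `b`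
  set κ : ℝ := 1 - ε / 2 with hκ
  have hκ0 : 0 < κ := by linarith
  have hκc : κ < c₀ := by linarith
  have hq : κ / c₀ < 1 := (div_lt_one hc₀0).2 hκc
  obtain ⟨m, hm⟩ := ((tendsto_pow_atTop_nhds_zero_of_lt_one (by positivity) hq).eventually_lt_const
    (pow_pos hc₀0 (j - 1))).exists
  have hm1 : κ ^ m ≤ c₀ ^ (j + m - 1) := by
    rw [div_pow, div_lt_iff₀ (by positivity)] at hm
    have : j + m - 1 = (j - 1) + m := by omega
    rw [this, pow_add]
    exact hm.le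
  have hm2 : κ ^ (m + 1) ≤ c₀ ^ (j + (m + 1) - 1) := by
    have : j + (m + 1) - 1 = (j + m - 1) + 1 := by omega
    rw [this, pow_succ, pow_succ]
    exact mul_le_mul hm1 hκc.le hκ0.le (by positivity)
  have h3 := part2 n j (j + (m + 1)) (A (j * n)) B c₀ 1 κ hn hj (by omega) hc₀0.le one_pos hκ0.le
    (by rw [one_pow, mul_one, Nat.add_sub_cancel_left]; exact hm2) (lt_of_le_of_lt (le_max_right _ _) hjA)
    (lt_of_le_of_lt (le_max_left _ _) hjA) h2 (hu _ _ (by nlinarith))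
  obtain ⟨X, hX⟩ := h3 (ε / 2) (by positivity)
  refine ⟨X, fun x hx D hD hD2 hS => ?_⟩
  have h5 := hX x hx D hD hD2 hS
  have h6 : κ - ε / 2 = 1 - ε := by rw [hκ]; ring
  rwa [h6] at h5

/-- the two halves of the asymptotic formula -/
lemma abs_iff {c m ε : ℝ} (hm : 0 < m) : |c / m - 1| ≤ ε ↔ (c ≤ (1 + ε) * m ∧ (1 - ε) * m ≤ c) := by
  rw [abs_le]
  constructor
  · rintro ⟨h1, h2⟩
    constructor
    · rw [← div_le_iff₀ hm]; linarith
    · rw [← le_div_iff₀ hm]; linarith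
  · rintro ⟨h1, h2⟩
    rw [← div_le_iff₀ hm] at h1
    rw [← le_div_iff₀ hm] at h2
    constructor <;> linarith

lemma main_pos {x : ℝ} (hx : 2 ≤ x) {D : Finset ℕ} (hD : 𝔖 D ≠ 0) (n : ℕ) : 0 < 𝔖 D * x / Real.log x ^ n := by
  have h1 : 0 < 𝔖 D := by
    have := CT_nonneg D
    rw [← S_eq] at this
    exact lt_of_le_of_ne this (Ne.symm hD)
  have h2 : 0 < Real.log x := Real.log_pos (by linarith)
  positivity

theorem question_iff : Question ↔ ∀ n : ℕ, 2 ≤ n → Upper n n 1 ∧ Lower n n 1 := by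
  constructor
  · intro h n hn
    obtain ⟨k, rfl⟩ : ∃ k, n = k + 1 := ⟨n - 1, by omega⟩
    constructor
    · intro ε hε
      obtain ⟨X, hX⟩ := h k (by omega) ε hε
      refine ⟨max X 2, fun x hx D hD hD2 hS => ?_⟩
      have hx2 : 2 ≤ x := (le_max_right _ _).trans hx
      have h1 := hX x ((le_max_left _ _).trans hx) D (by omega)
        (fun d hd => ⟨(hD2 d hd).1, by have := (hD2 d hd).2; rwa [Real.rpow_natCast] at this⟩) hS
      exact ((abs_iff (main_pos hx2 hS _)).1 h1).1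
    · intro ε hε
      obtain ⟨X, hX⟩ := h k (by omega) ε hε
      refine ⟨max X 2, fun x hx D hD hD2 hS => ?_⟩
      have hx2 : 2 ≤ x := (le_max_right _ _).trans hx
      have h1 := hX x ((le_max_left _ _).trans hx) D (by omega)
        (fun d hd => ⟨(hD2 d hd).1, by have := (hD2 d hd).2; rwa [Real.rpow_natCast] at this⟩) hS
      exact ((abs_iff (main_pos hx2 hS _)).1 h1).2
  · intro h k hk ε hε
    obtain ⟨h1, h2⟩ := h (k + 1) (by omega)
    obtain ⟨X1, hX1⟩ := h1 ε hε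
    obtain ⟨X2, hX2⟩ := h2 ε hε
    refine ⟨max (max X1 X2) 2, fun x hx D hD hD2 hS => ?_⟩
    have hx2 : 2 ≤ x := (le_max_right _ _).trans hx
    have hx3 : max X1 X2 ≤ x := (le_max_left _ _).trans hx
    have hD3 : ∀ d ∈ D, 2 ≤ d ∧ (d : ℝ) ≤ Real.log x ^ (((k + 1 : ℕ)) : ℝ) := fun d hd =>
      ⟨(hD2 d hd).1, by rw [Real.rpow_natCast]; exact (hD2 d hd).2⟩
    rw [abs_iff (main_pos hx2 hS _)]
    exact ⟨hX1 x ((le_max_left _ _).trans hx3) D (by omega) hD3 hS,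
      hX2 x ((le_max_right _ _).trans hx3) D (by omega) hD3 hS⟩

/-- the question for a sparse set of large sizes implies the asymptotic formula for all sizes and all
powers of `log x` -/
theorem part5 (S : Set ℕ) (A C c : ℕ → ℝ) (hS : ∀ n : ℕ, 1 ≤ n → {r : ℕ | r ∈ S ∧ n ∣ r}.Infinite)
    (hA : Tendsto A atTop atTop) (hC : ∀ ε : ℝ, 0 < ε → ∀ᶠ r : ℕ in atTop, C r ≤ Real.exp (ε * r))
    (hc : ∀ ε : ℝ, 0 < ε → ∀ᶠ r : ℕ in atTop, 1 - ε ≤ c r)
    (h : ∀ r ∈ S, 2 ≤ r → Upper r (A r) (C r) ∧ Lower r (A r) (c r)) (n : ℕ) (B : ℝ) (hn : 2 ≤ n) :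
    Upper n B 1 ∧ Lower n B 1 := by
  have h1 : ∀ (n : ℕ) (B : ℝ), 2 ≤ n → Upper n B 1 := part3 S A C hS hA hC (fun r hr h2 => (h r hr h2).1)
  exact ⟨h1 n B hn, part4 S A c hS hA hc h1 (fun r hr h2 => (h r hr h2).2) n B hn⟩

theorem question_all : Question ↔ ∀ (n : ℕ) (B : ℝ), 2 ≤ n → Upper n B 1 ∧ Lower n B 1 := by
  rw [question_iff]
  constructor
  · intro h n B hn
    refine part5 Set.univ (fun r => (r : ℝ)) (fun _ => 1) (fun _ => 1) ?_ tendsto_natCast_atTop_atTop ?_ ?_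
      (fun r _ hr => h r hr) n B hn
    · intro m hm
      refine Set.infinite_of_not_bddAbove ?_
      rintro ⟨M, hM⟩
      have := hM (a := m * (M + 1)) ⟨Set.mem_univ _, Dvd.intro _ rfl⟩
      nlinarith
    · intro ε hε
      filter_upwards with r
      exact Real.one_le_exp (by positivity)
    · intro ε hε
      filter_upwards with r
      linarith
  · intro h n hn
    exact h n n hn

/-- the asymptotic formula for almost all patterns -/
theorem part6 (h : ∀ (n : ℕ) (B : ℝ), 2 ≤ n → Upper n B 1) : AlmostAll := by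
  intro k hk ε hε
  obtain ⟨c, hc0, hc⟩ := CT_const (k + 1)
  have h0 : ∀ B : ℝ, UN (k + 1) B 1 := fun B => upper_nat (h (k + 1) B (by omega))
  -- the comparison of the two main terms
  set η : ℝ := min (ε / 4) (1 / 2) with hη
  have hη0 : 0 < η := lt_min (by positivity) (by norm_num)
  have hη1 : η ≤ ε / 4 := min_le_left _ _
  have hη2 : η ≤ 1 / 2 := min_le_right _ _
  have e1 : ∀ᶠ x : ℝ in atTop, ((⌊x⌋₊ : ℝ) / Real.log ⌊x⌋₊ ^ (k + 1)) / (x / Real.log x ^ (k + 1)) < 1 + η :=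
    (main_ratio (k + 1)).eventually_lt_const (by linarith)
  have e1' : ∀ᶠ x : ℝ in atTop, 1 - η < ((⌊x⌋₊ : ℝ) / Real.log ⌊x⌋₊ ^ (k + 1)) / (x / Real.log x ^ (k + 1)) :=
    (main_ratio (k + 1)).eventually_const_lt (by linarith)
  have e2 := tendsto_nat_floor_atTop (α := ℝ) |>.eventually (almost k hk h0 (ε := ε ^ 2 * c / 4) (by positivity))
  -- `log x ^ (k+1) ≤ 2 log ⌊x⌋ ^ (k+1)`
  have e3 : ∀ᶠ x : ℝ in atTop, 1 / 2 < (Real.log ⌊x⌋₊ / Real.log x) ^ (k + 1) := by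
    have := log_floor_ratio.pow (k + 1)
    rw [one_pow] at this
    exact this.eventually_const_lt (by norm_num)
  obtain ⟨X, hX⟩ := eventually_atTop.1 (e1.and (e1'.and (e2.and (e3.and (eventually_ge_atTop (3:ℝ))))))
  refine ⟨X, fun x hx => ?_⟩
  obtain ⟨h1, h1', h2, h3, h4⟩ := hX x hx
  set N : ℕ := ⌊x⌋₊ with hN
  have hx0 : 0 < x := by linarith
  have hlog : 0 < Real.log x := Real.log_pos (by linarith)
  have hN3 : (3:ℝ) ≤ (N : ℝ) := by
    have : 3 ≤ ⌊x⌋₊ := Nat.le_floor (by exact_mod_cast h4)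
    exact_mod_cast this
  have hNx : (N : ℝ) ≤ x := Nat.floor_le hx0.le
  have hlogN : 0 < Real.log (N : ℝ) := Real.log_pos (by linarith)
  have hlogNx : Real.log (N : ℝ) ≤ Real.log x := Real.log_le_log (by linarith) hNx
  have hm : 0 < x / Real.log x ^ (k + 1) := by positivity
  have hmN : 0 < (N : ℝ) / Real.log N ^ (k + 1) := by positivity
  rw [div_lt_iff₀ hm] at h1
  rw [lt_div_iff₀ hm] at h1'
  have h3' : Real.log x ^ (k + 1) ≤ 2 * Real.log (N : ℝ) ^ (k + 1) := by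
    rw [div_pow, lt_div_iff₀ (by positivity)] at h3
    linarith
  set F : Finset (Finset ℕ) := ((Icc 1 (MM k N)).powersetCard k).filter (fun D =>
    ε * c / 4 * ((N : ℝ) / Real.log N ^ (k + 1)) ≤
      |(pc (insert 0 D) N : ℝ) - CT (insert 0 D) * (N / Real.log N ^ (k + 1))|) with hF
  have hsub : {D : Finset ℕ | D.card = k ∧ (∀ d ∈ D, 2 ≤ d ∧ (d : ℝ) ≤ Real.log x ^ (k + 1)) ∧
      𝔖 (insert 0 D) ≠ 0 ∧
      ε < |(count x (insert 0 D) : ℝ) / (𝔖 (insert 0 D) * x / Real.log x ^ (k + 1)) - 1|} ⊆ (F : Set (Finset ℕ)) := by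
    rintro D ⟨hD1, hD2, hD3, hD4⟩
    have h0D : (0:ℕ) ∉ D := fun h => by have := (hD2 0 h).1; omega
    rw [hF, Finset.mem_coe, mem_filter, mem_powersetCard]
    refine ⟨⟨fun d hd => ?_, hD1⟩, ?_⟩
    · rw [mem_Icc]
      refine ⟨by have := (hD2 d hd).1; omega, ?_⟩
      unfold MM
      have h5 : d ≤ ⌊2 * Real.log (N : ℝ) ^ (k + 1)⌋₊ := Nat.le_floor ((hD2 d hd).2.trans h3')
      omega
    · have hcT : c ≤ CT (insert 0 D) := hc _ (by rw [card_insert_of_notMem h0D, hD1]) (adm_of hD3)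
      have hT0 : 0 < CT (insert 0 D) := lt_of_lt_of_le hc0 hcT
      have hmp : 0 < CT (insert 0 D) * x / Real.log x ^ (k + 1) := by positivity
      have h6 : ε * (CT (insert 0 D) * x / Real.log x ^ (k + 1)) <
          |(pc (insert 0 D) N : ℝ) - CT (insert 0 D) * x / Real.log x ^ (k + 1)| := by
        have h7 : (count x (insert 0 D) : ℝ) / (𝔖 (insert 0 D) * x / Real.log x ^ (k + 1)) - 1 =
            ((pc (insert 0 D) N : ℝ) - CT (insert 0 D) * x / Real.log x ^ (k + 1)) /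
              (CT (insert 0 D) * x / Real.log x ^ (k + 1)) := by
          rw [count_real, S_eq, sub_div, div_self hmp.ne']
        rw [h7, abs_div, abs_of_pos hmp, lt_div_iff₀ hmp] at hD4
        exact hD4
      set P : ℝ := (N : ℝ) / Real.log N ^ (k + 1) with hP
      set Q : ℝ := x / Real.log x ^ (k + 1) with hQ
      have h8 : CT (insert 0 D) * x / Real.log x ^ (k + 1) = CT (insert 0 D) * Q := by rw [hQ]; ring
      rw [h8] at h6
      have h9 : |P - Q| ≤ η * Q := by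
        rw [abs_le]; constructor <;> linarith
      have h10 : |(pc (insert 0 D) N : ℝ) - CT (insert 0 D) * Q| ≤
          |(pc (insert 0 D) N : ℝ) - CT (insert 0 D) * P| + CT (insert 0 D) * (η * Q) := by
        calc |(pc (insert 0 D) N : ℝ) - CT (insert 0 D) * Q|
            = |((pc (insert 0 D) N : ℝ) - CT (insert 0 D) * P) + CT (insert 0 D) * (P - Q)| := by
              congr 1; ring
          _ ≤ |(pc (insert 0 D) N : ℝ) - CT (insert 0 D) * P| + |CT (insert 0 D) * (P - Q)| := abs_add_le _ _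
          _ ≤ _ := by
              rw [abs_mul, abs_of_pos hT0]
              gcongr
      have h11 : P ≤ 3 / 2 * Q := by nlinarith
      -- `(ε c / 4) P ≤ (3 ε / 8) c Q ≤ (ε - η) T Q`
      have h12 : ε * c / 4 * P ≤ ε * c * (3 / 8) * Q := by
        have : 0 < ε * c := by positivity
        nlinarith
      have h13 : c * (ε * Q) ≤ CT (insert 0 D) * (ε * Q) := by
        have : 0 < ε * Q := by positivity
        exact mul_le_mul_of_nonneg_right hcT this.le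
      have h14 : CT (insert 0 D) * (η * Q) ≤ CT (insert 0 D) * (ε * Q) / 4 := by
        have : 0 < CT (insert 0 D) * Q := by positivity
        nlinarith
      have h15 : 0 < c * (ε * Q) := by positivity
      nlinarith
  have hcard : (F.card : ℝ) * (ε * c / 4 * ((N : ℝ) / Real.log N ^ (k + 1))) ≤
      ε ^ 2 * c / 4 * ((Real.log N ^ (k + 1)) ^ k * (N / Real.log N ^ (k + 1))) := by
    refine le_trans ?_ h2
    rw [← nsmul_eq_mul]
    calc F.card • (ε * c / 4 * ((N : ℝ) / Real.log N ^ (k + 1)))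
        ≤ ∑ D ∈ F, |(pc (insert 0 D) N : ℝ) - CT (insert 0 D) * (N / Real.log N ^ (k + 1))| :=
          Finset.card_nsmul_le_sum _ _ _ (fun D hD => (mem_filter.1 hD).2)
      _ ≤ _ := Finset.sum_le_sum_of_subset_of_nonneg (filter_subset _ _) (fun _ _ _ => abs_nonneg _)
  have hcard2 : (F.card : ℝ) ≤ ε * (Real.log (N : ℝ) ^ (k + 1)) ^ k := by
    have h5 : 0 < ε * c / 4 * ((N : ℝ) / Real.log N ^ (k + 1)) := by positivity
    have h6 : ε ^ 2 * c / 4 * ((Real.log (N : ℝ) ^ (k + 1)) ^ k * (N / Real.log N ^ (k + 1))) =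
        ε * (Real.log (N : ℝ) ^ (k + 1)) ^ k * (ε * c / 4 * ((N : ℝ) / Real.log N ^ (k + 1))) := by ring
    rw [h6] at hcard
    exact le_of_mul_le_mul_right hcard h5
  calc (({D : Finset ℕ | D.card = k ∧ (∀ d ∈ D, 2 ≤ d ∧ (d : ℝ) ≤ Real.log x ^ (k + 1)) ∧
      𝔖 (insert 0 D) ≠ 0 ∧
      ε < |(count x (insert 0 D) : ℝ) / (𝔖 (insert 0 D) * x / Real.log x ^ (k + 1)) - 1|}.ncard : ℕ) : ℝ)
      ≤ ((F : Set (Finset ℕ)).ncard : ℝ) := by
        exact_mod_cast Set.ncard_le_ncard hsub (Finset.finite_toSet F)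
    _ = (F.card : ℝ) := by rw [Set.ncard_coe_finset]
    _ ≤ ε * (Real.log (N : ℝ) ^ (k + 1)) ^ k := hcard2
    _ ≤ ε * (Real.log x ^ (k + 1)) ^ k := by gcongr

end proofs

/-- The constants in the upper and lower halves of the Hardy–Littlewood asymptotic for short shifts:

(0) the product `𝔖 D` converges absolutely for every finite set `D`;
(1) for `n ≥ 2`, `j ≥ 1`, `A > n`, `A' < A`: `Upper (j n) A (C ^ j)` implies `Upper n A' C`;
(2) for `n ≥ 2`, `b > a ≥ 1`, `A > n`, `A' < A`: `Lower (a n) A c` and `Upper (b n) A C` imply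
    `Lower n A' κ` if `κ ^ (b - a) C ^ (a - 1) ≤ c ^ (b - 1)`;
(3) let the set `S` contain infinitely many multiples of each `n ≥ 1`, let `A r → ∞` and
    `C r ≤ e ^ (o(r))`; if `Upper r (A r) (C r)` for all `2 ≤ r ∈ S`, then `Upper n B 1` for all `n ≥ 2` and
    `B`, and the asymptotic formula of the question holds for almost all sets of shifts;
(4) if moreover `c r ≥ 1 - o(1)` and `Lower r (A r) (c r)` for all `2 ≤ r ∈ S`, then the answer to the
    question is yes;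
(5) the answer to the question is yes if and only if `Upper n B 1` and `Lower n B 1` for all `n ≥ 2` and
    all `B`. -/
theorem result :
    (∀ D : Finset ℕ, Multipliable (fun p : Nat.Primes =>
      (1 - (nu D p : ℝ) / ((p : ℕ) : ℝ)) / (1 - 1 / ((p : ℕ) : ℝ)) ^ D.card)) ∧
    (∀ (n j : ℕ) (A A' C : ℝ), 2 ≤ n → 1 ≤ j → 0 ≤ C → (n : ℝ) < A → A' < A →
      Upper (j * n) A (C ^ j) → Upper n A' C) ∧
    (∀ (n a b : ℕ) (A A' c C κ : ℝ), 2 ≤ n → 1 ≤ a → a < b → 0 ≤ c → 0 < C → 0 ≤ κ →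
      κ ^ (b - a) * C ^ (a - 1) ≤ c ^ (b - 1) → (n : ℝ) < A → A' < A →
      Lower (a * n) A c → Upper (b * n) A C → Lower n A' κ) ∧
    (∀ (S : Set ℕ) (A C : ℕ → ℝ), (∀ n : ℕ, 1 ≤ n → {r : ℕ | r ∈ S ∧ n ∣ r}.Infinite) →
      Tendsto A atTop atTop → (∀ ε : ℝ, 0 < ε → ∀ᶠ r : ℕ in atTop, C r ≤ Real.exp (ε * r)) →
      (∀ r ∈ S, 2 ≤ r → Upper r (A r) (C r)) →
      (∀ (n : ℕ) (B : ℝ), 2 ≤ n → Upper n B 1) ∧ AlmostAll) ∧
    (∀ (S : Set ℕ) (A C c : ℕ → ℝ), (∀ n : ℕ, 1 ≤ n → {r : ℕ | r ∈ S ∧ n ∣ r}.Infinite) →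
      Tendsto A atTop atTop → (∀ ε : ℝ, 0 < ε → ∀ᶠ r : ℕ in atTop, C r ≤ Real.exp (ε * r)) →
      (∀ ε : ℝ, 0 < ε → ∀ᶠ r : ℕ in atTop, 1 - ε ≤ c r) →
      (∀ r ∈ S, 2 ≤ r → Upper r (A r) (C r) ∧ Lower r (A r) (c r)) → Question) ∧
    (Question ↔ ∀ (n : ℕ) (B : ℝ), 2 ≤ n → Upper n B 1 ∧ Lower n B 1) := by
  refine ⟨fun D => (Pool.Agent.H387R2.Uni.CT_hasProd D).multipliable, part1, part2, fun S A C hS hA hC h => ?_,
    fun S A C c hS hA hC hc h => ?_, question_all⟩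
  · have h1 := part3 S A C hS hA hC h
    exact ⟨h1, part6 h1⟩
  · exact question_all.2 (fun n B hn => part5 S A C c hS hA hC hc h n B hn)

end Pool.Agent.Results.MP_485179_nt.TensorPower
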